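import Mathlib
import Pool.Agent.H373R2.T7.SysCount
import Pool.Agent.L0h94.RZ.Defs

/-! Common lemmas for the sieve counts `S_ANB1`, `S_ANB2`. -/

set_option autoImplicit false

namespace Pool.Agent.L0h52.RZ
open Finset Pool.Agent.L0h94.RZ
open Pool.Agent.H373R2.T7 (pz Vz mem_pz nuB PerB)

/-- the number of residues with prescribed conditions at several primes -/
theorem crt_exact (A : ℕ → ℕ → Prop) [∀ p a, Decidable (A p a)] (S : Finset ℕ) (hS : ∀ p ∈ S, p.Prime) :
    ∀ q : ℕ, 1 ≤ q → (∀ p ∈ S, ¬ p ∣ q) → ∀ c : ℕ,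
    ((range (q * ∏ p ∈ S, p)).filter (fun n => n ≡ c [MOD q] ∧ ∀ p ∈ S, A p (n % p))).card =
      ∏ p ∈ S, ((range p).filter (fun a => A p a)).card := by
  induction S using Finset.induction_on with
  | empty =>
    intro q hq _ c
    simp only [prod_empty, mul_one, notMem_empty, IsEmpty.forall_iff, implies_true, and_true]
    rw [card_eq_one]
    refine ⟨c % q, ?_⟩
    ext n
    rw [mem_filter, mem_range, mem_singleton]
    constructor
    · rintro ⟨h1, h2⟩
      rw [Nat.ModEq, Nat.mod_eq_of_lt h1] at h2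
      exact h2
    · intro h
      rw [h]
      exact ⟨Nat.mod_lt _ (by omega), Nat.mod_modEq _ _⟩
  | insert p S hp ih =>
    intro q hq hdq c
    have hpp := hS p (mem_insert_self _ _)
    have hS' : ∀ p' ∈ S, p'.Prime := fun p' h => hS p' (mem_insert_of_mem h)
    have hpq : q.Coprime p := by
      rw [Nat.coprime_comm]
      exact (Nat.Prime.coprime_iff_not_dvd hpp).2 (hdq p (mem_insert_self _ _))
    rw [prod_insert hp, prod_insert hp]
    set ρ := (range p).filter (fun a => A p a) with hρ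
    have h1 : ((range (q * (p * ∏ p ∈ S, p))).filter (fun n => n ≡ c [MOD q] ∧ ∀ p' ∈ insert p S, A p' (n % p'))).card =
        ∑ a ∈ ρ, ((range ((q * p) * ∏ p ∈ S, p)).filter (fun n => n ≡ (Nat.chineseRemainder hpq c a : ℕ) [MOD (q * p)] ∧
          ∀ p' ∈ S, A p' (n % p'))).card := by
      rw [← mul_assoc q p]
      rw [card_eq_sum_card_fiberwise (f := fun n => n % p) (t := ρ)]
      · apply sum_congr rfl
        intro a ha
        rw [hρ, mem_filter, mem_range] at ha
        congr 1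
        ext n
        simp only [mem_filter, mem_insert, forall_eq_or_imp]
        have hcr : n ≡ (Nat.chineseRemainder hpq c a : ℕ) [MOD (q * p)] ↔ n ≡ c [MOD q] ∧ n ≡ a [MOD p] := by
          constructor
          · intro h
            have k1 := (Nat.chineseRemainder hpq c a).2.1
            have k2 := (Nat.chineseRemainder hpq c a).2.2
            exact ⟨(h.of_mul_right p).trans k1, (h.of_mul_left q).trans k2⟩
          · rintro ⟨h1, h2⟩
            exact Nat.chineseRemainder_modEq_unique hpq h1 h2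
        have hmod : n ≡ a [MOD p] ↔ n % p = a := by
          unfold Nat.ModEq
          rw [Nat.mod_eq_of_lt ha.1]
        rw [hcr, hmod]
        constructor
        · rintro ⟨⟨h1, h2, h3, h4⟩, h5⟩
          exact ⟨h1, ⟨h2, h5⟩, h4⟩
        · rintro ⟨h1, ⟨h2, h5⟩, h4⟩
          exact ⟨⟨h1, h2, by rw [h5]; exact ha.2, h4⟩, h5⟩
      · intro n hn
        simp only [coe_filter, mem_range, mem_insert, forall_eq_or_imp, Set.mem_ofPred_eq] at hn
        rw [hρ]
        simp only [coe_filter, mem_range, Set.mem_ofPred_eq]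
        exact ⟨Nat.mod_lt _ hpp.pos, hn.2.2.1⟩
    rw [h1]
    have h3 : ∀ a ∈ ρ, ((range ((q * p) * ∏ p ∈ S, p)).filter (fun n => n ≡ (Nat.chineseRemainder hpq c a : ℕ) [MOD (q * p)] ∧
          ∀ p' ∈ S, A p' (n % p'))).card = ∏ p' ∈ S, ((range p').filter (fun a => A p' a)).card := by
      intro a _
      apply ih hS' (q * p) (Nat.mul_pos hq hpp.pos)
      intro p' hp' hd
      have hp'p := hS' p' hp'
      rcases (Nat.Prime.dvd_mul hp'p).1 hd with h | h
      · exact hdq p' (mem_insert_of_mem hp') h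
      · rw [Nat.prime_dvd_prime_iff_eq hp'p hpp] at h
        exact hp (h ▸ hp')
    rw [sum_congr rfl h3, sum_const, smul_eq_mul]

/-- half of the nonzero classes have a prescribed symbol -/
theorem half_char (l : ℕ) [Fact l.Prime] (h2 : l ≠ 2) (e : ℤ) (he : e = 1 ∨ e = -1) :
    2 * ((univ : Finset (ZMod l)).filter (fun x => quadraticChar (ZMod l) x = e)).card = l - 1 := by
  have hc : ringChar (ZMod l) ≠ 2 := by
    rw [ZMod.ringChar_zmod_n]; exact h2
  have h1 := quadraticChar_sum_zero hc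
  have hpt : ∀ x : ZMod l, x ≠ 0 → quadraticChar (ZMod l) x = 1 ∨ quadraticChar (ZMod l) x = -1 :=
    fun x hx => quadraticChar_dichotomy hx
  have h2' : ∑ x : ZMod l, (quadraticChar (ZMod l) x) ^ 2 = (l : ℤ) - 1 := by
    have : ∀ x : ZMod l, (quadraticChar (ZMod l) x) ^ 2 = if x = 0 then 0 else 1 := by
      intro x
      split_ifs with h
      · rw [h]; simp
      · rcases hpt x h with h' | h' <;> rw [h'] <;> norm_num
    rw [sum_congr rfl (fun x _ => this x)]
    have h3 : ∀ x : ZMod l, (if x = 0 then (0 : ℤ) else 1) = 1 - (if x = 0 then 1 else 0) := by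
      intro x; split_ifs <;> ring
    rw [sum_congr rfl (fun x _ => h3 x), sum_sub_distrib]
    simp [ZMod.card]
  have h3 : (2 * (((univ : Finset (ZMod l)).filter (fun x => quadraticChar (ZMod l) x = e)).card : ℤ)) =
      ∑ x : ZMod l, ((quadraticChar (ZMod l) x) ^ 2 + e * quadraticChar (ZMod l) x) := by
    rw [card_filter]
    push_cast
    rw [mul_sum]
    apply sum_congr rfl
    intro x _
    by_cases hx : x = 0
    · rw [hx]
      rcases he with h | h <;> rw [h] <;> simp
    · rcases hpt x hx with h' | h' <;> rcases he with h | h <;> rw [h', h] <;> norm_num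
  rw [sum_add_distrib, h2', ← mul_sum, h1, mul_zero, add_zero] at h3
  have : 1 ≤ l := (Fact.out : l.Prime).one_le
  omega

open Classical in
/-- half of the unit classes of an affine form have a prescribed symbol -/
theorem half_cnt (l : ℕ) (hl : l.Prime) (h2 : l ≠ 2) (a b : ℤ) (ha : ¬ (l : ℤ) ∣ a) (e : ZMod 2) :
    2 * ((range l).filter (fun t : ℕ => ¬ (l : ℤ) ∣ a * t + b ∧ nr l (a * t + b) = e)).card = l - 1 := by
  have : Fact l.Prime := ⟨hl⟩
  have : NeZero l := ⟨hl.ne_zero⟩
  have ha' : (a : ZMod l) ≠ 0 := by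
    rw [Ne, ZMod.intCast_zmod_eq_zero_iff_dvd]; exact ha
  set ε : ℤ := if e = 1 then -1 else 1 with hε
  have hε2 : ε = 1 ∨ ε = -1 := by rw [hε]; split_ifs <;> simp
  rw [← half_char l h2 ε hε2]
  congr 1
  have key : ∀ x : ℤ, (¬ (l : ℤ) ∣ x ∧ nr l x = e) ↔ quadraticChar (ZMod l) (x : ZMod l) = ε := by
    intro x
    have hj : jacobiSym x l = quadraticChar (ZMod l) (x : ZMod l) := by
      rw [← jacobiSym.legendreSym.to_jacobiSym l x]; rfl
    by_cases hx : (l : ℤ) ∣ x
    · have h0 : (x : ZMod l) = 0 := (ZMod.intCast_zmod_eq_zero_iff_dvd x l).2 hx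
      rw [h0]
      simp only [hx, not_true, false_and, false_iff]
      rcases hε2 with h | h <;> rw [h] <;> simp
    · have h0 : (x : ZMod l) ≠ 0 := by
        rw [Ne, ZMod.intCast_zmod_eq_zero_iff_dvd]; exact hx
      simp only [hx, not_false_iff, true_and]
      unfold nr
      rw [hj, hε]
      have he2 : e = 0 ∨ e = 1 := by revert e; decide
      rcases quadraticChar_dichotomy h0 with h | h <;> rw [h] <;> rcases he2 with h' | h' <;> rw [h'] <;>
        norm_num
  have h3 : ((range l).filter (fun t : ℕ => ¬ (l : ℤ) ∣ a * t + b ∧ nr l (a * t + b) = e)).card =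
      ((univ : Finset (ZMod l)).filter (fun x => quadraticChar (ZMod l) (a * x + b) = ε)).card := by
    apply card_bij' (fun (t : ℕ) _ => (t : ZMod l)) (fun (x : ZMod l) _ => x.val)
    · intro t ht
      rw [mem_filter] at ht ⊢
      refine ⟨mem_univ _, ?_⟩
      have := (key (a * t + b)).1 ht.2
      push_cast at this
      exact this
    · intro x hx
      rw [mem_filter] at hx ⊢
      rw [mem_range]
      refine ⟨ZMod.val_lt x, ?_⟩
      rw [key]
      push_cast
      rw [ZMod.natCast_zmod_val]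
      exact hx.2
    · intro t ht
      rw [mem_filter, mem_range] at ht
      exact ZMod.val_cast_of_lt ht.1
    · intro x _
      exact ZMod.natCast_zmod_val x
  rw [h3]
  apply card_bij' (fun x _ => (a : ZMod l) * x + b) (fun y _ => ((a : ZMod l)⁻¹) * (y - b))
  · intro x hx
    rw [mem_filter] at hx ⊢
    exact ⟨mem_univ _, hx.2⟩
  · intro y hy
    rw [mem_filter] at hy ⊢
    refine ⟨mem_univ _, ?_⟩
    rw [← mul_assoc, mul_inv_cancel₀ ha', one_mul, sub_add_cancel]
    exact hy.2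
  · intro x _
    field_simp
    ring
  · intro y _
    field_simp
    ring


/-- at most one class of an affine form with unit slope is zero -/
theorem one_class (p : ℕ) (hp : p.Prime) (a b : ℕ) (hb : ¬ p ∣ b) :
    ((range p).filter (fun t => p ∣ a + b * t)).card ≤ 1 := by
  rw [card_le_one]
  intro x hx y hy
  rw [mem_filter, mem_range] at hx hy
  have h1 : a + b * x ≡ a + b * y [MOD p] :=
    ((Nat.modEq_zero_iff_dvd).2 hx.2).trans ((Nat.modEq_zero_iff_dvd).2 hy.2).symm
  have h2 : b * x ≡ b * y [MOD p] := Nat.ModEq.add_left_cancel' a h1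
  have h3 : x ≡ y [MOD p] := Nat.ModEq.cancel_left_of_coprime
    (by rw [(Nat.Prime.coprime_iff_not_dvd hp).2 hb]) h2
  have h4 := h3
  unfold Nat.ModEq at h4
  rwa [Nat.mod_eq_of_lt hx.1, Nat.mod_eq_of_lt hy.1] at h4

/-- the factors of the singular series -/
noncomputable def Hf (p : ℕ) : ℝ := if 5 ≤ p then 1 - 1 / ((p : ℝ) - 1) ^ 2 else 1

lemma Hf_nonneg (p : ℕ) : 0 ≤ Hf p := by
  unfold Hf
  split_ifs with h
  · have h5 : (5 : ℝ) ≤ p := by exact_mod_cast h
    rw [sub_nonneg, div_le_one (by nlinarith)]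
    nlinarith
  · exact zero_le_one

lemma Hf_le_one (p : ℕ) : Hf p ≤ 1 := by
  unfold Hf
  split_ifs with h
  · have : 0 ≤ 1 / ((p : ℝ) - 1) ^ 2 := by positivity
    linarith
  · exact le_rfl

lemma prodH_aux (z : ℕ) (hz : 4 ≤ z) : (3 / 4) * ((z : ℝ) / ((z : ℝ) - 1)) ≤ ∏ n ∈ Icc 1 z, Hf n := by
  induction z, hz using Nat.le_induction with
  | base =>
    have h : ∏ n ∈ Icc 1 4, Hf n = 1 := by
      apply prod_eq_one
      intro n hn
      rw [mem_Icc] at hn
      unfold Hf
      rw [if_neg (by omega)]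
    rw [h]
    norm_num
  | succ z hz ih =>
    have h4 : (4 : ℝ) ≤ z := by exact_mod_cast hz
    rw [Finset.prod_Icc_succ_top (by omega), mul_comm (∏ n ∈ Icc 1 z, Hf n)]
    have e : Hf (z + 1) = 1 - 1 / (z : ℝ) ^ 2 := by
      unfold Hf
      rw [if_pos (by omega)]
      push_cast
      ring_nf
    rw [e]
    have hpos : 0 ≤ 1 - 1 / (z : ℝ) ^ 2 := by
      rw [sub_nonneg, div_le_one (by positivity)]
      nlinarith
    refine le_trans (le_of_eq ?_) (mul_le_mul_of_nonneg_left ih hpos)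
    have h0 : (z : ℝ) ≠ 0 := by linarith
    have h1 : (z : ℝ) - 1 ≠ 0 := by linarith
    have e1 : ((z + 1 : ℕ) : ℝ) - 1 = z := by push_cast; ring
    rw [e1]
    push_cast
    field_simp
    ring

lemma prodH (z : ℕ) : 3 / 4 ≤ ∏ p ∈ pz z, Hf p := by
  have h1 : ∏ n ∈ Icc 1 z, Hf n ≤ ∏ p ∈ pz z, Hf p := by
    unfold Pool.Agent.H373R2.T7.pz
    rw [← prod_filter_mul_prod_filter_not (Icc 1 z) Nat.Prime Hf]
    apply mul_le_of_le_one_right (prod_nonneg (fun _ _ => Hf_nonneg _))
    exact prod_le_one (fun _ _ => Hf_nonneg _) (fun _ _ => Hf_le_one _)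
  refine le_trans ?_ h1
  rcases Nat.lt_or_ge z 4 with h | h
  · rw [prod_eq_one]
    · norm_num
    · intro n hn
      rw [mem_Icc] at hn
      unfold Hf
      rw [if_neg (by omega)]
  · refine le_trans ?_ (prodH_aux z h)
    have h4 : (4 : ℝ) ≤ z := by exact_mod_cast h
    have : 1 ≤ (z : ℝ) / ((z : ℝ) - 1) := by
      rw [le_div_iff₀ (by linarith)]
      linarith
    linarith

/-- the large primes do not matter -/
lemma prod_large (D z : ℕ) (hz : 1 ≤ z) (h : 2 * (D.primeFactors.card : ℝ) ≤ z) :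
    1 / 2 ≤ ∏ l ∈ D.primeFactors.filter (fun l => ¬ l ≤ z), (1 - 1 / (l : ℝ)) := by
  have hz0 : (0 : ℝ) < z := by exact_mod_cast hz
  set S := D.primeFactors.filter (fun l => ¬ l ≤ z) with hS
  have h1 : ∀ T : Finset ℕ, T ⊆ S → 1 - (T.card : ℝ) * (1 / z) ≤ ∏ l ∈ T, (1 - 1 / (l : ℝ)) := by
    intro T
    induction T using Finset.induction_on with
    | empty => intro _; simp
    | insert l T hl ih =>
      intro hT
      have ih' := ih (fun x hx => hT (mem_insert_of_mem hx))
      have hlS := hT (mem_insert_self l T)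
      rw [hS, mem_filter] at hlS
      have hlz : (z : ℝ) ≤ l := by
        have : z ≤ l := by omega
        exact_mod_cast this
      have hl0 : (0 : ℝ) < l := by linarith
      have hl1 : (1 : ℝ) / l ≤ 1 / z := one_div_le_one_div_of_le hz0 hlz
      have hp1 : ∏ l ∈ T, (1 - 1 / (l : ℝ)) ≤ 1 := by
        apply prod_le_one
        · intro x hx
          have hx' := hT (mem_insert_of_mem hx)
          rw [hS, mem_filter] at hx'
          have : (1 : ℝ) ≤ x := by exact_mod_cast (Nat.prime_of_mem_primeFactors hx'.1).one_le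
          rw [sub_nonneg, div_le_one (by linarith)]
          exact this
        · intro x _
          have : (0 : ℝ) ≤ 1 / x := by positivity
          linarith
      have hp0 : 0 ≤ ∏ l ∈ T, (1 - 1 / (l : ℝ)) := by
        apply prod_nonneg
        intro x hx
        have hx' := hT (mem_insert_of_mem hx)
        rw [hS, mem_filter] at hx'
        have : (1 : ℝ) ≤ x := by exact_mod_cast (Nat.prime_of_mem_primeFactors hx'.1).one_le
        rw [sub_nonneg, div_le_one (by linarith)]
        exact this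
      rw [card_insert_of_notMem hl, prod_insert hl]
      push_cast
      have : 1 / (l : ℝ) * ∏ l ∈ T, (1 - 1 / (l : ℝ)) ≤ 1 / z := by
        calc _ ≤ 1 / (l : ℝ) * 1 := mul_le_mul_of_nonneg_left hp1 (by positivity)
          _ ≤ _ := by rw [mul_one]; exact hl1
      linarith
  refine le_trans ?_ (h1 S (Subset.refl _))
  have h2 : (S.card : ℝ) ≤ D.primeFactors.card := by exact_mod_cast card_le_card (filter_subset _ _)
  have h3 : (S.card : ℝ) * (1 / z) ≤ 1 / 2 := by
    rw [mul_one_div, div_le_iff₀ hz0]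
    linarith
  linarith

lemma card_large (Bd : ℕ) : ∃ X0 : ℕ, ∀ X : ℕ, X0 ≤ X → ∀ n : ℕ, (2 : ℝ) ^ n ≤ Real.log X ^ Bd →
    2 * (n : ℝ) ≤ Real.log X := by
  have h1 : Filter.Tendsto (fun x : ℝ => (4 * Bd) * Real.log x / x) Filter.atTop (nhds 0) := by
    have h := Real.tendsto_pow_log_div_mul_add_atTop 1 0 1 one_ne_zero
    have h' := h.const_mul (4 * (Bd : ℝ))
    simp only [pow_one, one_mul, add_zero, mul_zero] at h'
    refine h'.congr ?_
    intro x
    ring
  have h2 : ∀ᶠ x : ℝ in Filter.atTop, (4 * Bd) * Real.log x ≤ x := by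
    have h3 := h1.eventually (gt_mem_nhds (zero_lt_one' ℝ))
    filter_upwards [h3, Filter.eventually_gt_atTop 0] with x hx hx0
    rw [div_lt_one hx0] at hx
    exact hx.le
  have h3 : ∀ᶠ X : ℕ in Filter.atTop, (4 * Bd) * Real.log (Real.log X) ≤ Real.log X :=
    (Real.tendsto_log_atTop.comp tendsto_natCast_atTop_atTop).eventually h2
  obtain ⟨X0, hX0⟩ := Filter.eventually_atTop.1 h3
  refine ⟨max X0 3, fun X hX n hn => ?_⟩
  have h4 := hX0 X (le_trans (le_max_left _ _) hX)
  have hX3 : (3 : ℝ) ≤ X := by exact_mod_cast le_trans (le_max_right _ _) hX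
  have hL : 1 ≤ Real.log X := by
    rw [Real.le_log_iff_exp_le (by linarith)]
    exact le_trans (le_of_lt (lt_trans Real.exp_one_lt_d9 (by norm_num))) hX3
  have h5 : Real.log ((2 : ℝ) ^ n) ≤ Real.log (Real.log X ^ Bd) := Real.log_le_log (by positivity) hn
  rw [Real.log_pow, Real.log_pow] at h5
  have h6 : 1 / 2 ≤ Real.log 2 := by
    have := Real.log_two_gt_d9
    linarith
  have h7 : (n : ℝ) * (1 / 2) ≤ n * Real.log 2 := mul_le_mul_of_nonneg_left h6 (Nat.cast_nonneg _)
  linarith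

theorem cnt_lower (c B : ℕ) (hc : 1 ≤ c) : ∃ X0 : ℕ, ∀ X : ℕ, X0 ≤ X → ∀ N z : ℕ, X ≤ N ^ 2 → 1 ≤ z →
    (z : ℝ) ≤ Real.log X ^ (B + 1) → ∀ Q : ℕ → ℕ → Prop, PerB Q c → ∀ Pi : ℝ,
    (1 / 2) / (z : ℝ) ^ 2 ≤ Pi → Pi ≤ ∏ p ∈ pz z, (1 - (nuB Q p : ℝ) / p) → ∀ F : Finset ℕ,
    (∀ n ∈ Icc 1 N, (∀ p ∈ pz z, ¬ Q p n) → n ∈ F) → (1 / 2) * N * Pi ≤ (F.card : ℝ) := by
  classical
  set U := 4 * (B + 1) + 2 with hU
  obtain ⟨N0, h0⟩ := Pool.Agent.H373R2.T7.sys_count c (2 * (B + 1)) U hc
  refine ⟨(N0 + 10) ^ 2, fun X hX N z hN hz hzX Q hQ Pi hPi1 hPi2 F hF => ?_⟩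
  have hN10 : N0 + 10 ≤ N := by
    by_contra hcon
    push Not at hcon
    have : N ^ 2 < (N0 + 10) ^ 2 := Nat.pow_lt_pow_left hcon (by norm_num)
    omega
  have hNr : (10 : ℝ) ≤ N := by
    have : 10 ≤ N := by omega
    exact_mod_cast this
  have hXr : (100 : ℝ) ≤ X := by
    have : 10 ^ 2 ≤ (N0 + 10) ^ 2 := Nat.pow_le_pow_left (by omega) 2
    have : 100 ≤ X := by omega
    exact_mod_cast this
  have hL2 : 2 ≤ Real.log N := by
    rw [Real.le_log_iff_exp_le (by linarith)]
    have h1 : Real.exp 2 = Real.exp 1 * Real.exp 1 := by rw [← Real.exp_add]; norm_num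
    rw [h1]
    have h2 := Real.exp_one_lt_d9
    have h3 := Real.exp_pos 1
    nlinarith
  have hLX : Real.log X ≤ 2 * Real.log N := by
    have h1 : (X : ℝ) ≤ (N : ℝ) ^ 2 := by exact_mod_cast hN
    have h2 := Real.log_le_log (by linarith) h1
    rwa [Real.log_pow] at h2
  have hLX0 : 0 ≤ Real.log X := Real.log_nonneg (by linarith)
  set L := Real.log N with hL
  have hzE : (z : ℝ) ≤ L ^ (2 * (B + 1)) := by
    refine hzX.trans ?_
    rw [pow_mul]
    apply pow_le_pow_left₀ hLX0
    nlinarith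
  have key := h0 N (by omega) z hz hzE Q hQ
  have hFc : (((Icc 1 N).filter (fun n : ℕ => ∀ p ∈ pz z, ¬ Q p n)).card : ℝ) ≤ F.card := by
    have : ((Icc 1 N).filter (fun n : ℕ => ∀ p ∈ pz z, ¬ Q p n)).card ≤ F.card := by
      apply card_le_card
      intro n hn
      rw [mem_filter] at hn
      exact hF n hn.1 hn.2
    exact_mod_cast this
  refine le_trans ?_ hFc
  rw [abs_le] at key
  have hz0 : (0 : ℝ) < z := by exact_mod_cast hz
  have hN0 : (0 : ℝ) < N := by linarith
  have h1 : (N : ℝ) * Pi ≤ N * ∏ p ∈ pz z, (1 - (nuB Q p : ℝ) / p) := mul_le_mul_of_nonneg_left hPi2 hN0.le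
  have hL0 : 0 < L := by linarith
  have hz2 : (z : ℝ) ^ 2 ≤ L ^ (4 * (B + 1)) := by
    have := pow_le_pow_left₀ hz0.le hzE 2
    rw [← pow_mul] at this
    refine this.trans (le_of_eq ?_)
    congr 1
    ring
  have h2 : (N : ℝ) / L ^ U ≤ (1 / 2) * N * Pi := by
    have h3 : 1 / L ^ U ≤ (1 / 2) * Pi := by
      have h4 : (1 / 4) / L ^ (4 * (B + 1)) ≤ (1 / 2) * Pi := by
        have h5 : (1 / 2) / L ^ (4 * (B + 1)) ≤ (1 / 2) / (z : ℝ) ^ 2 :=
          div_le_div_of_nonneg_left (by norm_num) (by positivity) hz2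
        have h6 : (1 / 4) / L ^ (4 * (B + 1)) = (1 / 2) * ((1 / 2) / L ^ (4 * (B + 1))) := by ring
        rw [h6]
        exact mul_le_mul_of_nonneg_left (h5.trans hPi1) (by norm_num)
      refine le_trans ?_ h4
      rw [hU, pow_add, ← div_div, div_le_div_iff₀ (by positivity) (by positivity)]
      have h7 : (4 : ℝ) ≤ L ^ 2 := by nlinarith
      rw [div_mul_cancel₀ _ (by positivity)]
      nlinarith
    calc (N : ℝ) / L ^ U = N * (1 / L ^ U) := by ring
      _ ≤ N * ((1 / 2) * Pi) := mul_le_mul_of_nonneg_left h3 hN0.le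
      _ = _ := by ring
  linarith [key.1]

/-- progressions with different starting points are disjoint -/
theorem lift (M : ℕ) (hM : 0 < M) (T1 TT : Finset ℕ) (hT1 : ∀ t ∈ T1, t < M) (G : ℕ → Finset ℕ)
    (h : ∀ t ∈ T1, ∀ t' ∈ G t, t + M * t' ∈ TT) : ∑ t ∈ T1, (G t).card ≤ TT.card := by
  rw [← card_sigma]
  apply card_le_card_of_injOn (fun x => x.1 + M * x.2)
  · rintro ⟨t, t'⟩ hx
    rw [mem_coe, mem_sigma] at hx
    exact h t hx.1 t' hx.2
  · rintro ⟨t, t'⟩ hx ⟨u, u'⟩ hy hxy
    rw [mem_coe, mem_sigma] at hx hy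
    simp only at hx hy hxy
    have h1 := hT1 t hx.1
    have h2 := hT1 u hy.1
    have h3 : (t + M * t') % M = (u + M * u') % M := by rw [hxy]
    rw [Nat.add_mul_mod_self_left, Nat.add_mul_mod_self_left, Nat.mod_eq_of_lt h1, Nat.mod_eq_of_lt h2] at h3
    subst h3
    have h4 : M * t' = M * u' := by omega
    have h5 := Nat.eq_of_mul_eq_mul_left hM h4
    subst h5
    rfl

end Pool.Agent.L0h52.RZ
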