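import Mathlib
import Pool.Agent.L0h52.RZ.Anb0

/-! Part (17) of project RZ: the sieve count over `q`, `r`. -/

set_option autoImplicit false

namespace Pool.Agent.L0h52.RZ
open Finset Pool.Agent.L0h94.RZ
open Pool.Agent.H373R2.T7 (pz Vz mem_pz nuB PerB Vz_pos Vz_ge Vz_le_one nuB_le)

/-- the product over the small primes of `A` -/
noncomputable def Pz (A z : ℕ) : ℝ := ∏ l ∈ A.primeFactors.filter (fun l => l ≤ z), (1 - 1 / (l : ℝ))

lemma one_sub_pos {p : ℕ} (hp : p.Prime) : 0 < 1 - 1 / (p : ℝ) := by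
  have : (2 : ℝ) ≤ p := by exact_mod_cast hp.two_le
  rw [sub_pos, div_lt_one (by linarith)]
  linarith

lemma one_sub_le (p : ℕ) : 1 - 1 / (p : ℝ) ≤ 1 := by
  have : (0 : ℝ) ≤ 1 / p := by positivity
  linarith

lemma Pz_pos (A z : ℕ) : 0 < Pz A z := by
  unfold Pz
  apply prod_pos
  intro p hp
  rw [mem_filter] at hp
  exact one_sub_pos (Nat.prime_of_mem_primeFactors hp.1)

lemma Pz_le_one (A z : ℕ) : Pz A z ≤ 1 := by
  unfold Pz
  apply prod_le_one
  · intro p hp
    rw [mem_filter] at hp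
    exact (one_sub_pos (Nat.prime_of_mem_primeFactors hp.1)).le
  · intro p _
    exact one_sub_le p

lemma Pz_eq (A z : ℕ) (hA : A ≠ 0) : Pz A z = ∏ p ∈ pz z, (if p ∣ A then 1 - 1 / (p : ℝ) else 1) := by
  unfold Pz
  rw [← prod_filter]
  apply prod_congr _ (fun _ _ => rfl)
  ext p
  rw [mem_filter, mem_filter, mem_pz, Nat.mem_primeFactors]
  tauto

/-- lower bound of the number of the classes -/
lemma classes_ge (A z T : ℕ) (hA : Squarefree A) (hz : 1 ≤ z) (h : 2 * (A.primeFactors.card : ℝ) ≤ z)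
    (f : ℕ → ℕ) (hf : ∀ l ∈ A.primeFactors, 2 * f l = l - 1) (hT : T = ∏ l ∈ A.primeFactors, f l) :
    (1 / 2) ^ A.primeFactors.card * ((A : ℝ) * ((1 / 2) * Pz A z)) ≤ T := by
  have h1 : ∀ l ∈ A.primeFactors, (f l : ℝ) = (1 / 2) * ((l : ℝ) * (1 - 1 / (l : ℝ))) := by
    intro l hl
    have hlp := Nat.prime_of_mem_primeFactors hl
    have hl1 := hlp.one_le
    have h2 := hf l hl
    have h3 : 2 * f l + 1 = l := by omega
    have h4 : 2 * (f l : ℝ) + 1 = l := by exact_mod_cast h3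
    have hl0 : (l : ℝ) ≠ 0 := by
      have := hlp.pos
      positivity
    rw [mul_sub, mul_one, mul_one_div_cancel hl0]
    linarith
  have h2 : (T : ℝ) = (1 / 2) ^ A.primeFactors.card * ((A : ℝ) * ∏ l ∈ A.primeFactors, (1 - 1 / (l : ℝ))) := by
    rw [hT]
    push_cast
    rw [prod_congr rfl h1, prod_mul_distrib, prod_mul_distrib, prod_const]
    congr 2
    rw [← Nat.cast_prod, Nat.prod_primeFactors_of_squarefree hA]
  rw [h2]
  apply mul_le_mul_of_nonneg_left _ (by positivity)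
  apply mul_le_mul_of_nonneg_left _ (Nat.cast_nonneg _)
  rw [← prod_filter_mul_prod_filter_not A.primeFactors (fun l => l ≤ z)]
  rw [mul_comm]
  apply mul_le_mul_of_nonneg_left (prod_large A z hz h) (Pz_pos A z).le

/-- the number of excluded classes -/
def nu1 (A BC p : ℕ) : ℕ := if p ∣ 6 * A then 0 else if p ∣ BC then 1 else 2

lemma prod1 (A BC z : ℕ) (hA : A ≠ 0) :
    (3 / 4) * (Vz z) ^ 2 / Pz A z ≤ ∏ p ∈ pz z, (1 - (nu1 A BC p : ℝ) / p) := by
  rw [div_le_iff₀ (Pz_pos A z), Pz_eq A z hA, ← prod_mul_distrib]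
  have h1 : (3 / 4) * (Vz z) ^ 2 ≤ (∏ p ∈ pz z, Hf p) * (Vz z) ^ 2 :=
    mul_le_mul_of_nonneg_right (prodH z) (by positivity)
  refine h1.trans ?_
  unfold Pool.Agent.H373R2.T7.Vz
  rw [← prod_pow, ← prod_mul_distrib]
  apply prod_le_prod
  · intro p _
    exact mul_nonneg (Hf_nonneg p) (by positivity)
  · intro p hp
    have hpp := (mem_pz.1 hp).2
    have h0 := one_sub_pos hpp
    have h1 := one_sub_le p
    have hH0 := Hf_nonneg p
    have hH1 := Hf_le_one p
    set x := 1 - 1 / (p : ℝ) with hx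
    have hx2 : Hf p * x ^ 2 ≤ x := by
      have h2 : Hf p * x ^ 2 ≤ 1 * x ^ 2 := mul_le_mul_of_nonneg_right hH1 (by positivity)
      nlinarith
    unfold nu1
    by_cases h6A : p ∣ 6 * A
    · rw [if_pos h6A]
      by_cases hpA : p ∣ A
      · rw [if_pos hpA]
        simpa using hx2
      · rw [if_neg hpA]
        simp only [Nat.cast_zero, zero_div, sub_zero, mul_one]
        linarith
    · rw [if_neg h6A]
      have hpA : ¬ p ∣ A := fun h => h6A (Dvd.dvd.mul_left h 6)
      rw [if_neg hpA]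
      by_cases hBC : p ∣ BC
      · rw [if_pos hBC]
        simp only [Nat.cast_one, mul_one]
        exact hx2
      · rw [if_neg hBC]
        have hp6 : ¬ p ∣ 6 := fun h => h6A (Dvd.dvd.mul_right h A)
        have hp5 : 5 ≤ p := by
          by_contra hcon
          push Not at hcon
          have := hpp.two_le
          interval_cases p
          · exact hp6 (by norm_num)
          · exact hp6 (by norm_num)
          · exact absurd hpp (by norm_num)
        have h5 : (5 : ℝ) ≤ p := by exact_mod_cast hp5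
        unfold Hf
        rw [if_pos hp5, hx]
        have e1 : (p : ℝ) ≠ 0 := by linarith
        have e2 : (p : ℝ) - 1 ≠ 0 := by linarith
        apply le_of_eq
        push_cast
        field_simp
        ring

lemma Nfacts (X D0 : ℕ) (hX : 10 ^ 9 ≤ X) (hD : (D0 : ℝ) ≤ (X : ℝ) ^ (1 / 10 : ℝ)) (h0 : 0 < D0) :
    1000 * D0 * (X / (1000 * D0)) ≤ X ∧ X ≤ 2000 * D0 * (X / (1000 * D0)) ∧ X ≤ (X / (1000 * D0)) ^ 2 ∧
    1 ≤ X / (1000 * D0) := by
  have h1 : D0 ^ 10 ≤ X := by
    have h2 : (D0 : ℝ) ^ 10 ≤ ((X : ℝ) ^ (1 / 10 : ℝ)) ^ 10 := pow_le_pow_left₀ (Nat.cast_nonneg _) hD 10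
    rw [← Real.rpow_natCast ((X : ℝ) ^ (1 / 10 : ℝ)) 10, ← Real.rpow_mul (Nat.cast_nonneg _)] at h2
    norm_num at h2
    exact_mod_cast h2
  have h3 : 4000000 * D0 ^ 2 ≤ X := by
    rcases Nat.le_total D0 10 with h | h
    · have : D0 ^ 2 ≤ 10 ^ 2 := Nat.pow_le_pow_left h 2
      omega
    · have h4 : 10 ^ 8 ≤ D0 ^ 8 := Nat.pow_le_pow_left h 8
      have h5 : D0 ^ 10 = D0 ^ 8 * D0 ^ 2 := by ring
      have h6 : 10 ^ 8 * D0 ^ 2 ≤ D0 ^ 8 * D0 ^ 2 := Nat.mul_le_mul_right _ h4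
      have h7 : 4000000 * D0 ^ 2 ≤ 10 ^ 8 * D0 ^ 2 := Nat.mul_le_mul_right _ (by norm_num)
      omega
  have h4 : D0 ≤ D0 ^ 2 := by nlinarith
  have h5 : 1000 * D0 ≤ X := by omega
  set N := X / (1000 * D0) with hN
  have hN1 : 1 ≤ N := (Nat.one_le_div_iff (by omega)).2 h5
  have a1 : 1000 * D0 * N ≤ X := Nat.mul_div_le X (1000 * D0)
  have a2 : X < 1000 * D0 * (N + 1) := Nat.lt_mul_div_succ X (by omega)
  have a3 : X ≤ 2000 * D0 * N := by nlinarith
  refine ⟨a1, a3, ?_, hN1⟩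
  by_contra hcon
  push Not at hcon
  have b1 : X * X ≤ (2000 * D0 * N) * (2000 * D0 * N) := Nat.mul_le_mul a3 a3
  have b2 : (2000 * D0 * N) * (2000 * D0 * N) = (4000000 * D0 ^ 2) * N ^ 2 := by ring
  have b3 : (4000000 * D0 ^ 2) * N ^ 2 < (4000000 * D0 ^ 2) * X := Nat.mul_lt_mul_of_pos_left hcon (by positivity)
  have b4 : (4000000 * D0 ^ 2) * X ≤ X * X := Nat.mul_le_mul_right _ h3
  omega

lemma exists_res (a b k : ℕ) (hb : 0 < b) (hk : k.Coprime b) : ∃ r0, 1 ≤ r0 ∧ r0 ≤ b ∧ b ∣ a + k * r0 := by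
  have : NeZero b := ⟨hb.ne'⟩
  set u : ZMod b := (k : ZMod b)⁻¹ * (-(a : ZMod b)) with hu
  have h1 : (k : ZMod b) * (k : ZMod b)⁻¹ = 1 := ZMod.coe_mul_inv_eq_one k hk
  have h2 : (a : ZMod b) + k * u = 0 := by
    rw [hu, ← mul_assoc, h1]; ring
  by_cases h0 : u.val = 0
  · refine ⟨b, hb, le_rfl, ?_⟩
    rw [← ZMod.natCast_eq_zero_iff]
    have h3 : u = 0 := (ZMod.val_eq_zero u).1 h0
    rw [h3] at h2
    push_cast
    simpa using h2
  · refine ⟨u.val, by omega, (ZMod.val_lt u).le, ?_⟩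
    rw [← ZMod.natCast_eq_zero_iff]
    push_cast
    rw [ZMod.natCast_zmod_val]
    exact h2

lemma nr_congr (l : ℕ) (x y : ℤ) (h : (l : ℤ) ∣ x - y) : nr l x = nr l y := by
  unfold nr
  have h1 : x % (l : ℤ) = y % (l : ℤ) := (Int.emod_eq_emod_iff_emod_sub_eq_zero).2 (Int.emod_eq_zero_of_dvd h)
  rw [jacobiSym.mod_left' h1]

lemma trans_cond (l : ℕ) (a b' : ℤ) (t t1 : ℕ) (h : t ≡ t1 [MOD l]) (e : ZMod 2)
    (h1 : ¬ (l : ℤ) ∣ a * ((t1 % l : ℕ) : ℤ) + b' ∧ nr l (a * ((t1 % l : ℕ) : ℤ) + b') = e) :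
    ¬ (l : ℤ) ∣ a * t + b' ∧ nr l (a * t + b') = e := by
  have h2 : t ≡ t1 % l [MOD l] := h.trans (Nat.mod_modEq _ _).symm
  have h3 : (l : ℤ) ∣ ((t1 % l : ℕ) : ℤ) - t := (Nat.modEq_iff_dvd).1 h2
  have h4 : (l : ℤ) ∣ (a * ((t1 % l : ℕ) : ℤ) + b') - (a * t + b') := by
    have : (a * ((t1 % l : ℕ) : ℤ) + b') - (a * t + b') = a * (((t1 % l : ℕ) : ℤ) - t) := by ring
    rw [this]
    exact Dvd.dvd.mul_left h3 a
  constructor
  · intro hd
    exact h1.1 ((Int.dvd_iff_dvd_of_dvd_sub h4).2 hd)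
  · rw [← nr_congr l _ _ h4]; exact h1.2

lemma per_dvd (p a b n : ℕ) : p ∣ a + b * n ↔ p ∣ a + b * (n % p) := by
  have h : a + b * n ≡ a + b * (n % p) [MOD p] :=
    Nat.ModEq.add_left a (Nat.ModEq.mul_left b (Nat.mod_modEq n p).symm)
  exact h.dvd_iff (dvd_refl p)

lemma lmz_eq (z n : ℕ) : lmz z n = if ∀ p ∈ pz z, ¬ p ∣ n then (Vz z)⁻¹ else 0 := rfl

lemma lmz_nonneg (z n : ℕ) : 0 ≤ lmz z n := by
  rw [lmz_eq]
  split_ifs
  · exact (inv_pos.2 (Vz_pos z)).le
  · exact le_rfl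

lemma nu1_le (A BC p : ℕ) : nu1 A BC p ≤ 2 := by
  unfold nu1; split_ifs <;> omega

open Classical in
/-- the number of the excluded classes for two affine forms -/
lemma two_forms (z A b C p0 : ℕ) (hrough : ∀ l : ℕ, l.Prime → l ≤ z → ¬ l ∣ p0)
    (a1 b1 a2 b2 : ℕ) (hb1 : b1 = 48 * (C * A)) (hb2 : b2 = 12 * (A * b))
    (hrel : ∀ t, b * (a1 + b1 * t) = A * p0 + 4 * C * (a2 + b2 * t))
    (Q : ℕ → ℕ → Prop)
    (hQ : ∀ l t, Q l t ↔ l ∈ pz z ∧ ¬ l ∣ 6 * A ∧ (l ∣ a1 + b1 * t ∨ l ∣ a2 + b2 * t)) :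
    PerB Q 2 ∧ ∀ l : ℕ, l.Prime → nuB Q l ≤ nu1 A (b * C) l := by
  have key : ∀ l : ℕ, l.Prime → nuB Q l ≤ nu1 A (b * C) l := by
    intro l hl
    unfold Pool.Agent.H373R2.T7.nuB
    by_cases h0 : l ∈ pz z ∧ ¬ l ∣ 6 * A
    · obtain ⟨hz, h6A⟩ := h0
      have hlA : ¬ l ∣ A := fun h => h6A (Dvd.dvd.mul_left h 6)
      have hl6 : ¬ l ∣ 6 := fun h => h6A (Dvd.dvd.mul_right h A)
      have hl2 : l ≠ 2 := by rintro rfl; exact hl6 (by norm_num)
      have hl3 : l ≠ 3 := by rintro rfl; exact hl6 (by norm_num)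
      have hl48 : ¬ l ∣ 48 := by
        intro h
        have : l ∣ 2 ^ 4 * 3 := by norm_num; exact h
        rcases (Nat.Prime.dvd_mul hl).1 this with h | h
        · exact hl2 ((Nat.prime_dvd_prime_iff_eq hl Nat.prime_two).1 (hl.dvd_of_dvd_pow h))
        · exact hl3 ((Nat.prime_dvd_prime_iff_eq hl Nat.prime_three).1 h)
      have hl12 : ¬ l ∣ 12 := fun h => hl48 (h.trans (by norm_num))
      have hlp : ¬ l ∣ p0 := hrough l hl (mem_pz.1 hz).1
      have hlAp : ¬ l ∣ A * p0 := by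
        intro h
        rcases (Nat.Prime.dvd_mul hl).1 h with h | h
        · exact hlA h
        · exact hlp h
      have s1 : ((range l).filter (fun r => Q l r)).card ≤ ((range l).filter (fun t => l ∣ a1 + b1 * t)).card +
          ((range l).filter (fun t => l ∣ a2 + b2 * t)).card := by
        refine (card_le_card ?_).trans (card_union_le _ _)
        intro t ht
        rw [mem_filter, hQ] at ht
        rw [mem_union, mem_filter, mem_filter]
        rcases ht.2.2.2 with h | h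
        · exact Or.inl ⟨ht.1, h⟩
        · exact Or.inr ⟨ht.1, h⟩
      have c1 : ¬ l ∣ C → ((range l).filter (fun t => l ∣ a1 + b1 * t)).card ≤ 1 := by
        intro hC
        apply one_class l hl
        rw [hb1]
        intro h
        rcases (Nat.Prime.dvd_mul hl).1 h with h | h
        · exact hl48 h
        · rcases (Nat.Prime.dvd_mul hl).1 h with h | h
          · exact hC h
          · exact hlA h
      have c2 : ¬ l ∣ b → ((range l).filter (fun t => l ∣ a2 + b2 * t)).card ≤ 1 := by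
        intro hb
        apply one_class l hl
        rw [hb2]
        intro h
        rcases (Nat.Prime.dvd_mul hl).1 h with h | h
        · exact hl12 h
        · rcases (Nat.Prime.dvd_mul hl).1 h with h | h
          · exact hlA h
          · exact hb h
      have d1 : l ∣ C → ((range l).filter (fun t => l ∣ a1 + b1 * t)).card = 0 := by
        intro hC
        rw [card_eq_zero, filter_eq_empty_iff]
        intro t _ ht
        apply hlAp
        have h5 : l ∣ 4 * C * (a2 + b2 * t) := Dvd.dvd.mul_right (Dvd.dvd.mul_left hC 4) _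
        have h6 : l ∣ A * p0 + 4 * C * (a2 + b2 * t) := by rw [← hrel]; exact Dvd.dvd.mul_left ht b
        exact (Nat.dvd_add_left h5).1 h6
      have d2 : l ∣ b → ((range l).filter (fun t => l ∣ a2 + b2 * t)).card = 0 := by
        intro hb
        rw [card_eq_zero, filter_eq_empty_iff]
        intro t _ ht
        apply hlAp
        have h5 : l ∣ 4 * C * (a2 + b2 * t) := Dvd.dvd.mul_left ht _
        have h6 : l ∣ A * p0 + 4 * C * (a2 + b2 * t) := by rw [← hrel]; exact Dvd.dvd.mul_right hb _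
        exact (Nat.dvd_add_left h5).1 h6
      refine s1.trans ?_
      unfold nu1
      rw [if_neg h6A]
      by_cases hb : l ∣ b
      · rw [if_pos (Dvd.dvd.mul_right hb C), d2 hb]
        by_cases hC : l ∣ C
        · rw [d1 hC]; omega
        · have := c1 hC; omega
      · by_cases hC : l ∣ C
        · rw [if_pos (Dvd.dvd.mul_left hC b), d1 hC]
          have := c2 hb
          omega
        · have hbC : ¬ l ∣ b * C := by
            intro h
            rcases (Nat.Prime.dvd_mul hl).1 h with h | h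
            · exact hb h
            · exact hC h
          rw [if_neg hbC]
          have := c1 hC
          have := c2 hb
          omega
    · have : ((range l).filter (fun r => Q l r)).card = 0 := by
        rw [card_eq_zero, filter_eq_empty_iff]
        intro t _ ht
        rw [hQ] at ht
        exact h0 ⟨ht.1, ht.2.1⟩
      rw [this]
      exact Nat.zero_le _
  refine ⟨⟨?_, fun l hl => (key l hl).trans (nu1_le _ _ _)⟩, key⟩
  intro l t
  rw [hQ, hQ, per_dvd l a1 b1 t, per_dvd l a2 b2 t]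

lemma Pi_le (A BC z : ℕ) (hA : A ≠ 0) (Q : ℕ → ℕ → Prop)
    (h : ∀ l : ℕ, l.Prime → nuB Q l ≤ nu1 A BC l) :
    (3 / 4) * (Vz z) ^ 2 / Pz A z ≤ ∏ p ∈ pz z, (1 - (nuB Q p : ℝ) / p) := by
  refine (prod1 A BC z hA).trans ?_
  apply prod_le_prod
  · intro p hp
    have hpp := (mem_pz.1 hp).2
    have h2 : (2 : ℝ) ≤ p := by exact_mod_cast hpp.two_le
    have h3 : (nu1 A BC p : ℝ) ≤ 2 := by exact_mod_cast nu1_le A BC p
    rw [sub_nonneg, div_le_one (by linarith)]
    linarith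
  · intro p hp
    have hpp := (mem_pz.1 hp).2
    have h3 : (nuB Q p : ℝ) ≤ nu1 A BC p := by exact_mod_cast h p hpp
    have h4 : (nuB Q p : ℝ) / p ≤ nu1 A BC p / p := div_le_div_of_nonneg_right h3 (Nat.cast_nonneg _)
    linarith

open Classical in
/-- sums over a product are at least sums over an injective image -/
lemma sum_ge_image (Q R : ℕ) (F : ℕ → ℕ → ℝ) (hF : ∀ q r, 0 ≤ F q r) (TT : Finset ℕ) (u v : ℕ → ℕ)
    (hu : ∀ t ∈ TT, u t ∈ Icc 1 Q) (hv : ∀ t ∈ TT, v t ∈ Icc 1 R) (hinj : ∀ t t', v t = v t' → t = t') (c : ℝ)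
    (hc : ∀ t ∈ TT, c ≤ F (u t) (v t)) : (TT.card : ℝ) * c ≤ ∑ q ∈ Icc 1 Q, ∑ r ∈ Icc 1 R, F q r := by
  rw [← sum_product' (f := fun q r => F q r)]
  have h1 : ∑ x ∈ TT.image (fun t => (u t, v t)), F x.1 x.2 ≤ ∑ x ∈ Icc 1 Q ×ˢ Icc 1 R, F x.1 x.2 := by
    apply sum_le_sum_of_subset_of_nonneg
    · intro x hx
      rw [mem_image] at hx
      obtain ⟨t, ht, rfl⟩ := hx
      rw [mem_product]
      exact ⟨hu t ht, hv t ht⟩
    · intro x _ _
      exact hF _ _
  refine le_trans ?_ h1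
  rw [sum_image]
  · calc (TT.card : ℝ) * c = ∑ t ∈ TT, c := by rw [sum_const, nsmul_eq_mul]
      _ ≤ _ := sum_le_sum hc
  · intro t _ t' _ h
    exact hinj t t' (Prod.ext_iff.1 h).2

open Classical in
theorem anb1 : S_ANB1 := by
  intro B hB
  refine ⟨3 / 32000, by norm_num, ?_⟩
  obtain ⟨X1, h1⟩ := cnt_lower 2 B (by norm_num)
  obtain ⟨X2, h2⟩ := card_large 20
  refine ⟨max (max X1 X2) (10 ^ 9), ?_⟩
  intro X hX s P Q R z E hSt hD hSz hom hz1 hz2 p hp1 hp4 hW1 hrough
  have hXX1 : X1 ≤ X := le_trans (le_trans (le_max_left _ _) (le_max_left _ _)) hX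
  have hXX2 : X2 ≤ X := le_trans (le_trans (le_max_right _ _) (le_max_left _ _)) hX
  have hX9 : 10 ^ 9 ≤ X := le_trans (le_max_right _ _) hX
  obtain ⟨hsq, hc6⟩ := hSt
  rw [Fin.prod_univ_three] at hsq hc6 hD hom
  have hp1' := hSz.p1
  have hq3' := hSz.q3
  have hr3' := hSz.r3
  obtain ⟨hWB, hWC, hW48⟩ := hW1
  unfold W2
  clear hSz
  generalize s 0 = A at *
  generalize s 1 = b at *
  generalize s 2 = C at *
  set D0 := A * b * C with hD0
  have hD0pos : 0 < D0 := Nat.pos_of_ne_zero hsq.ne_zero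
  have hApos : 0 < A := Nat.pos_of_ne_zero (by intro h; rw [hD0, h] at hD0pos; simp at hD0pos)
  have hbpos : 0 < b := Nat.pos_of_ne_zero (by intro h; rw [hD0, h] at hD0pos; simp at hD0pos)
  have hCpos : 0 < C := Nat.pos_of_ne_zero (by intro h; rw [hD0, h] at hD0pos; simp at hD0pos)
  have hsqA : Squarefree A := hsq.squarefree_of_dvd ⟨b * C, by rw [hD0]; ring⟩
  have hcop1 : Nat.Coprime (A * b) C := Nat.coprime_of_squarefree_mul (by rw [hD0] at hsq; exact hsq)
  have hsqAb : Squarefree (A * b) := hsq.squarefree_of_dvd ⟨C, by rw [hD0]⟩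
  have hcopAb : Nat.Coprime A b := Nat.coprime_of_squarefree_mul hsqAb
  have hcopAC : Nat.Coprime A C := Nat.Coprime.coprime_mul_right hcop1
  have hcopbC : Nat.Coprime b C := Nat.Coprime.coprime_mul_left hcop1
  have hA6 : A.Coprime 6 := Nat.Coprime.coprime_dvd_left ⟨b * C, by rw [hD0]; ring⟩ hc6
  have hb6 : b.Coprime 6 := Nat.Coprime.coprime_dvd_left ⟨A * C, by rw [hD0]; ring⟩ hc6
  have hC6 : C.Coprime 6 := Nat.Coprime.coprime_dvd_left ⟨A * b, by rw [hD0]; ring⟩ hc6
  have hpr6 : ∀ k : ℕ, k.Coprime 6 → k.Coprime 12 := by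
    intro k hk
    exact Nat.Coprime.coprime_dvd_right (by norm_num) (Nat.Coprime.pow_right 2 hk)
  obtain ⟨hN1, hN2, hN3, hN4⟩ := Nfacts X D0 hX9 hD hD0pos
  set N := X / (1000 * D0) with hN
  -- the base point
  have hb4C : (4 * C).Coprime b := by
    apply Nat.Coprime.mul_left
    · have : Nat.Coprime 2 b := (Nat.Coprime.coprime_dvd_right (by norm_num : 2 ∣ 6) hb6).symm
      exact Nat.Coprime.pow_left 2 this
    · exact hcopbC.symm
  obtain ⟨r0, hr01, hr02, ⟨q0, hq0⟩⟩ := exists_res (A * p) b (4 * C) hbpos hb4C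
  obtain ⟨c12, _, _, hc12⟩ := exists_res (C * r0 + 5) 12 (C * b) (by norm_num)
    (Nat.Coprime.mul_left (hpr6 C hC6) (hpr6 b hb6))
  have hq0pos : 0 < q0 := by
    rcases Nat.eq_zero_or_pos q0 with h | h
    · rw [h, mul_zero] at hq0
      have : 0 < 4 * C * r0 := by positivity
      omega
    · exact h
  -- the solutions
  set qf : ℕ → ℕ := fun t => q0 + 4 * C * t with hqf
  set rf : ℕ → ℕ := fun t => r0 + b * t with hrf
  have hrel : ∀ t, b * qf t = A * p + 4 * C * rf t := by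
    intro t
    simp only [hqf, hrf]
    rw [mul_add, ← hq0]
    ring
  -- the classes
  set Pl : ℕ → ℕ → Prop := fun l a => ¬ (l : ℤ) ∣ (4 * b * C : ℤ) * (a : ℤ) + (b * q0 : ℤ) ∧
    nr l ((4 * b * C : ℤ) * (a : ℤ) + (b * q0 : ℤ)) = ind E l with hPl
  set T1 := (range (12 * ∏ l ∈ A.primeFactors, l)).filter
    (fun n => n ≡ c12 [MOD 12] ∧ ∀ l ∈ A.primeFactors, Pl l (n % l)) with hT1
  have hprodA : ∏ l ∈ A.primeFactors, l = A := Nat.prod_primeFactors_of_squarefree hsqA
  have hT1c : T1.card = ∏ l ∈ A.primeFactors, ((range l).filter (fun a => Pl l a)).card := by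
    rw [hT1]
    apply crt_exact Pl A.primeFactors (fun l hl => Nat.prime_of_mem_primeFactors hl) 12 (by norm_num)
    intro l hl h12
    have hlp := Nat.prime_of_mem_primeFactors hl
    have h3 := Nat.Coprime.coprime_dvd_left (Nat.dvd_of_mem_primeFactors hl) (hpr6 A hA6)
    exact hlp.one_lt.ne' (Nat.Coprime.eq_one_of_dvd h3 h12)
  have hz1' : 1 ≤ Real.log X := by
    rw [Real.le_log_iff_exp_le (by positivity)]
    have h3 : (10 : ℝ) ≤ X := by
      have : 10 ≤ X := by omega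
      exact_mod_cast this
    have := Real.exp_one_lt_d9
    linarith
  have hzX : Real.log X ≤ z := by
    refine le_trans ?_ hz1
    calc Real.log X = Real.log X ^ 1 := (pow_one _).symm
      _ ≤ _ := pow_le_pow_right₀ hz1' (by omega)
  have hz1'' : 1 ≤ z := by
    have : (1 : ℝ) ≤ z := hz1'.trans hzX
    exact_mod_cast this
  have hcardD := h2 X hXX2 _ hom
  have hAD : A.primeFactors.card ≤ D0.primeFactors.card :=
    card_le_card (Nat.primeFactors_mono ⟨b * C, by rw [hD0]; ring⟩ hD0pos.ne')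
  have hcardA : 2 * (A.primeFactors.card : ℝ) ≤ z := by
    have : (A.primeFactors.card : ℝ) ≤ D0.primeFactors.card := by exact_mod_cast hAD
    linarith
  have hclass := classes_ge A z T1.card hsqA hz1'' hcardA (fun l => ((range l).filter (fun a => Pl l a)).card)
    (fun l hl => by
      have hlp := Nat.prime_of_mem_primeFactors hl
      have hlA := Nat.dvd_of_mem_primeFactors hl
      have hl6 : l.Coprime 6 := Nat.Coprime.coprime_dvd_left hlA hA6
      have hl2 : l ≠ 2 := by rintro rfl; norm_num at hl6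
      have hlb : ¬ l ∣ b := fun h => hlp.one_lt.ne' (Nat.Coprime.eq_one_of_dvd (Nat.Coprime.coprime_dvd_left hlA hcopAb) h)
      have hlC : ¬ l ∣ C := fun h => hlp.one_lt.ne' (Nat.Coprime.eq_one_of_dvd (Nat.Coprime.coprime_dvd_left hlA hcopAC) h)
      refine half_cnt l hlp hl2 (4 * b * C : ℤ) (b * q0 : ℤ) ?_ (ind E l)
      intro h
      have h' : l ∣ 4 * b * C := by exact_mod_cast h
      rcases (Nat.Prime.dvd_mul hlp).1 h' with h | h
      · rcases (Nat.Prime.dvd_mul hlp).1 h with h | h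
        · have : l ∣ 2 ^ 2 := by norm_num; exact h
          exact hl2 ((Nat.prime_dvd_prime_iff_eq hlp Nat.prime_two).1 (hlp.dvd_of_dvd_pow this))
        · exact hlb h
      · exact hlC h) hT1c
  -- the good t
  set TT := (range (12 * A * (N + 1))).filter (fun t => ((∀ l ∈ A.primeFactors, ¬ l ∣ qf t ∧
      nr l ((b * qf t : ℕ) : ℤ) = ind E l) ∧ (b * qf t) % 48 = 35) ∧ (∀ l ∈ pz z, ¬ l ∣ qf t) ∧
      ∀ l ∈ pz z, ¬ l ∣ rf t) with hTT
  set Qt : ℕ → ℕ → ℕ → Prop := fun t1 l t => l ∈ pz z ∧ ¬ l ∣ 6 * A ∧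
    (l ∣ (q0 + 4 * C * t1) + (48 * (C * A)) * t ∨ l ∣ (r0 + b * t1) + (12 * (A * b)) * t) with hQt
  have hforms : ∀ t1 t, qf (t1 + (12 * A) * t) = (q0 + 4 * C * t1) + (48 * (C * A)) * t ∧
      rf (t1 + (12 * A) * t) = (r0 + b * t1) + (12 * (A * b)) * t := by
    intro t1 t
    simp only [hqf, hrf]
    constructor <;> ring
  have hQt2 : ∀ t1, PerB (Qt t1) 2 ∧ ∀ l : ℕ, l.Prime → nuB (Qt t1) l ≤ nu1 A (b * C) l := by
    intro t1
    apply two_forms z A b C p hrough (q0 + 4 * C * t1) (48 * (C * A)) (r0 + b * t1) (12 * (A * b)) rfl rfl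
    · intro t
      rw [← (hforms t1 t).1, ← (hforms t1 t).2]
      exact hrel _
    · intro l t
      exact Iff.rfl
  set G : ℕ → Finset ℕ := fun t1 => (Icc 1 N).filter (fun t => ∀ l ∈ pz z, ¬ Qt t1 l t) with hG
  set Pi : ℝ := (3 / 4) * (Vz z) ^ 2 / Pz A z with hPi
  have hPipos : 0 < Pi := by
    rw [hPi]
    have := Vz_pos z
    have := Pz_pos A z
    positivity
  have hzr : (0 : ℝ) < z := by exact_mod_cast hz1''
  have hPi1 : (1 / 2) / (z : ℝ) ^ 2 ≤ Pi := by
    rw [hPi, le_div_iff₀ (Pz_pos A z)]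
    have h3 : (1 / 2) / (z : ℝ) ^ 2 * Pz A z ≤ (1 / 2) / (z : ℝ) ^ 2 * 1 :=
      mul_le_mul_of_nonneg_left (Pz_le_one A z) (by positivity)
    have h4 : (1 / (z : ℝ)) ^ 2 ≤ (Vz z) ^ 2 := pow_le_pow_left₀ (by positivity) (Vz_ge z hz1'') 2
    have h5 : (1 / (z : ℝ)) ^ 2 = 1 / (z : ℝ) ^ 2 := by rw [div_pow, one_pow]
    have h6 : (1 / 2) / (z : ℝ) ^ 2 = (1 / 2) * (1 / (z : ℝ) ^ 2) := by ring
    rw [h5] at h4
    rw [h6] at h3 ⊢
    have h7 : (0 : ℝ) < 1 / (z : ℝ) ^ 2 := by positivity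
    linarith
  have hGc : ∀ t1, (1 / 2) * N * Pi ≤ ((G t1).card : ℝ) := by
    intro t1
    apply h1 X hXX1 N z hN3 hz1'' hz2 (Qt t1) (hQt2 t1).1 Pi hPi1
      (Pi_le A (b * C) z hApos.ne' (Qt t1) (hQt2 t1).2)
    intro n hn hn2
    rw [hG, mem_filter]
    exact ⟨hn, hn2⟩
  have hlift : ∑ t ∈ T1, (G t).card ≤ TT.card := by
    apply lift (12 * A) (by positivity) T1 TT
    · intro t ht
      rw [hT1, mem_filter, mem_range, hprodA] at ht
      exact ht.1
    · intro t1 ht1 t ht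
      rw [hT1, mem_filter, mem_range, hprodA] at ht1
      obtain ⟨ht1a, ht1b, ht1c⟩ := ht1
      rw [hG, mem_filter, mem_Icc] at ht
      obtain ⟨⟨hta, htb⟩, htc⟩ := ht
      have hW2a : ∀ l ∈ A.primeFactors, ¬ l ∣ qf (t1 + 12 * A * t) ∧
          nr l ((b * qf (t1 + 12 * A * t) : ℕ) : ℤ) = ind E l := by
        intro l hl
        have hlA := Nat.dvd_of_mem_primeFactors hl
        have h3 : t1 + 12 * A * t ≡ t1 [MOD l] := by
          have h4 : 12 * A * t ≡ 0 [MOD l] := (Nat.modEq_zero_iff_dvd).2 (Dvd.dvd.mul_right (Dvd.dvd.mul_left hlA 12) t)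
          simpa using Nat.ModEq.add_left t1 h4
        have h4 := trans_cond l (4 * b * C : ℤ) (b * q0 : ℤ) (t1 + 12 * A * t) t1 h3 (ind E l) (ht1c l hl)
        have h5 : (4 * b * C : ℤ) * ((t1 + 12 * A * t : ℕ) : ℤ) + (b * q0 : ℤ) = ((b * qf (t1 + 12 * A * t) : ℕ) : ℤ) := by
          simp only [hqf]
          push_cast
          ring
        rw [h5] at h4
        refine ⟨fun h => h4.1 ?_, h4.2⟩
        exact_mod_cast Dvd.dvd.mul_left h b
      have hW2b : (C * rf (t1 + 12 * A * t)) % 12 = 7 := by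
        have h3 : t1 + 12 * A * t ≡ c12 [MOD 12] := by
          have h4 : 12 * A * t ≡ 0 [MOD 12] := (Nat.modEq_zero_iff_dvd).2 ⟨A * t, by ring⟩
          have h5 := Nat.ModEq.add ht1b h4
          simpa using h5
        have h4 : C * rf (t1 + 12 * A * t) + 5 ≡ C * r0 + 5 + C * b * c12 [MOD 12] := by
          have h5 : C * rf (t1 + 12 * A * t) + 5 = C * r0 + 5 + C * b * (t1 + 12 * A * t) := by
            simp only [hrf]; ring
          rw [h5]
          exact Nat.ModEq.add_left _ (Nat.ModEq.mul_left _ h3)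
        have h5 : C * rf (t1 + 12 * A * t) + 5 ≡ 0 [MOD 12] := h4.trans ((Nat.modEq_zero_iff_dvd).2 hc12)
        unfold Nat.ModEq at h5
        omega
      have hW2c : (b * qf (t1 + 12 * A * t)) % 48 = 35 := by
        rw [hrel, mul_assoc 4 C]
        omega
      have hunit : ∀ l ∈ pz z, ¬ l ∣ qf (t1 + 12 * A * t) ∧ ¬ l ∣ rf (t1 + 12 * A * t) := by
        intro l hl
        have hlp := (mem_pz.1 hl).2
        by_cases h6A : l ∣ 6 * A
        · rcases (Nat.Prime.dvd_mul hlp).1 h6A with h6 | hlA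
          · have h12 : l ∣ 12 := h6.trans (by norm_num)
            have h48 : l ∣ 48 := h6.trans (by norm_num)
            have hle : l ≤ 6 := Nat.le_of_dvd (by norm_num) h6
            have hl23 : l = 2 ∨ l = 3 := by
              have := hlp.two_le
              interval_cases l
              · left; rfl
              · right; rfl
              · exact absurd hlp (by norm_num)
              · norm_num at h6
              · exact absurd hlp (by norm_num)
            constructor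
            · intro h
              have h3 : l ∣ b * qf (t1 + 12 * A * t) := Dvd.dvd.mul_left h b
              generalize b * qf (t1 + 12 * A * t) = W at h3 hW2c
              rcases hl23 with rfl | rfl <;> omega
            · intro h
              have h3 : l ∣ C * rf (t1 + 12 * A * t) := Dvd.dvd.mul_left h C
              generalize C * rf (t1 + 12 * A * t) = W at h3 hW2b
              rcases hl23 with rfl | rfl <;> omega
          · have hlm : l ∈ A.primeFactors := Nat.mem_primeFactors.2 ⟨hlp, hlA, hApos.ne'⟩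
            refine ⟨(hW2a l hlm).1, fun h => ?_⟩
            have h3 : l ∣ b * qf (t1 + 12 * A * t) := by
              rw [hrel]
              exact dvd_add (Dvd.dvd.mul_right hlA p) (Dvd.dvd.mul_left h _)
            rcases (Nat.Prime.dvd_mul hlp).1 h3 with h4 | h4
            · exact hlp.one_lt.ne' (Nat.Coprime.eq_one_of_dvd (Nat.Coprime.coprime_dvd_left hlA hcopAb) h4)
            · exact (hW2a l hlm).1 h4
        · have h3 := htc l hl
          rw [(hforms t1 t).1, (hforms t1 t).2]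
          constructor
          · intro h
            exact h3 ⟨hl, h6A, Or.inl h⟩
          · intro h
            exact h3 ⟨hl, h6A, Or.inr h⟩
      rw [hTT, mem_filter, mem_range]
      refine ⟨?_, ⟨hW2a, hW2c⟩, fun l hl => (hunit l hl).1, fun l hl => (hunit l hl).2⟩
      have : 12 * A * t ≤ 12 * A * N := Nat.mul_le_mul_left _ htb
      have e : 12 * A * (N + 1) = 12 * A * N + 12 * A := by ring
      omega
  -- the sum
  have hVinv : 0 ≤ (Vz z)⁻¹ := (inv_pos.2 (Vz_pos z)).le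
  have hsum := sum_ge_image Q R (fun q r => if (A : ℤ) * (p : ℕ) + (-(b : ℤ)) * (q : ℕ) + (4 * (C : ℤ)) * (r : ℕ) = 0 then
      (if ((∀ l ∈ A.primeFactors, ¬ l ∣ q ∧ nr l ((b * q : ℕ) : ℤ) = ind E l) ∧ (b * q) % 48 = 35) then lmz z q else 0) * lmz z r else 0)
    (by
      intro q r
      split_ifs
      · exact mul_nonneg (lmz_nonneg z q) (lmz_nonneg z r)
      · rw [zero_mul]
      · exact le_rfl) TT qf rf
    (by
      intro t ht
      rw [hTT, mem_filter, mem_range] at ht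
      have h3 := ht.1
      rw [mem_Icc]
      refine ⟨by simp only [hqf]; omega, ?_⟩
      have h4 : b * qf t = A * p + 4 * C * rf t := hrel t
      have h5 : rf t ≤ b * (t + 1) := by simp only [hrf]; nlinarith
      have h6 : b * (t + 1) ≤ b * (12 * A * (N + 1)) := Nat.mul_le_mul_left _ h3
      have h7 : 4 * C * rf t ≤ 4 * C * (b * (12 * A * (N + 1))) := Nat.mul_le_mul_left _ (h5.trans h6)
      have h8 : 4 * C * (b * (12 * A * (N + 1))) = 48 * (D0 * N) + 48 * D0 := by rw [hD0]; ring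
      have h9 : D0 ≤ D0 * N := Nat.le_mul_of_pos_right _ hN4
      have h10 : 1000 * (D0 * N) ≤ X := by
        have : 1000 * D0 * N = 1000 * (D0 * N) := by ring
        omega
      have h11 : 4 * (A * p) ≤ A * P := by
        have : A * (4 * p) ≤ A * P := Nat.mul_le_mul_left _ hp4
        have e : A * (4 * p) = 4 * (A * p) := by ring
        omega
      have h12 : b * qf t < b * Q := by
        have e : 2 * (b * Q) > X := hq3'
        omega
      exact (Nat.lt_of_mul_lt_mul_left h12).le)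
    (by
      intro t ht
      rw [hTT, mem_filter, mem_range] at ht
      have h3 := ht.1
      rw [mem_Icc]
      refine ⟨by simp only [hrf]; omega, ?_⟩
      have h5 : rf t ≤ b * (t + 1) := by simp only [hrf]; nlinarith
      have h6 : b * (t + 1) ≤ b * (12 * A * (N + 1)) := Nat.mul_le_mul_left _ h3
      have h7 : 4 * C * rf t ≤ 4 * C * (b * (12 * A * (N + 1))) := Nat.mul_le_mul_left _ (h5.trans h6)
      have h8 : 4 * C * (b * (12 * A * (N + 1))) = 48 * (D0 * N) + 48 * D0 := by rw [hD0]; ring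
      have h9 : D0 ≤ D0 * N := Nat.le_mul_of_pos_right _ hN4
      have h10 : 1000 * (D0 * N) ≤ X := by
        have : 1000 * D0 * N = 1000 * (D0 * N) := by ring
        omega
      have h12 : 4 * C * rf t < 4 * C * R := by
        have e : 2 * (4 * C * R) > X := hr3'
        omega
      exact (Nat.lt_of_mul_lt_mul_left h12).le)
    (by
      intro t t' h
      simp only [hrf] at h
      have h3 : b * t = b * t' := by omega
      exact Nat.eq_of_mul_eq_mul_left hbpos h3)
    ((Vz z)⁻¹ * (Vz z)⁻¹)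
    (by
      intro t ht
      rw [hTT, mem_filter, mem_range] at ht
      have h3 : (A : ℤ) * (p : ℕ) + (-(b : ℤ)) * (qf t : ℕ) + (4 * (C : ℤ)) * (rf t : ℕ) = 0 := by
        have h4 : ((b * qf t : ℕ) : ℤ) = ((A * p + 4 * C * rf t : ℕ) : ℤ) := by rw [hrel t]
        push_cast at h4
        linarith
      rw [if_pos h3, if_pos ht.2.1, lmz_eq, lmz_eq, if_pos ht.2.2.1, if_pos ht.2.2.2])
  refine le_of_le_of_eq (le_trans ?_ hsum) ?_
  swap
  · refine sum_congr rfl (fun q _ => sum_congr rfl (fun r _ => ?_))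
    congr
  have hV := Vz_pos z
  have hP := Pz_pos A z
  have hNr : (X : ℝ) ≤ 2000 * ((A : ℝ) * b * C) * N := by
    have : (X : ℝ) ≤ ((2000 * D0 * N : ℕ) : ℝ) := by exact_mod_cast hN2
    rw [hD0] at this
    push_cast at this
    exact this
  have hTTc : (T1.card : ℝ) * ((1 / 2) * N * Pi) ≤ TT.card := by
    have h3 : ((∑ t ∈ T1, (G t).card : ℕ) : ℝ) ≤ TT.card := by exact_mod_cast hlift
    refine le_trans ?_ h3
    push_cast
    rw [← nsmul_eq_mul, ← sum_const]
    exact sum_le_sum (fun t _ => hGc t)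
  have hA0 : (0 : ℝ) < A := by exact_mod_cast hApos
  have hb0 : (0 : ℝ) < b := by exact_mod_cast hbpos
  have hC0 : (0 : ℝ) < C := by exact_mod_cast hCpos
  have hNpos : (0 : ℝ) < N := by exact_mod_cast hN4
  have h3 : (1 / 2 : ℝ) ^ A.primeFactors.card * ((A : ℝ) * ((1 / 2) * Pz A z)) * ((1 / 2) * N * Pi) ≤ TT.card :=
    (mul_le_mul_of_nonneg_right hclass (by positivity)).trans hTTc
  have h4 : (1 / 2 : ℝ) ^ A.primeFactors.card * ((A : ℝ) * ((1 / 2) * Pz A z)) * ((1 / 2) * N * Pi) =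
      (3 / 16) * (1 / 2 : ℝ) ^ A.primeFactors.card * (A * N) * (Vz z) ^ 2 := by
    rw [hPi]
    field_simp
    ring
  rw [h4] at h3
  have h5 : (3 / 16) * (1 / 2 : ℝ) ^ A.primeFactors.card * (A * N) ≤ (TT.card : ℝ) * ((Vz z)⁻¹ * (Vz z)⁻¹) := by
    have h6 := mul_le_mul_of_nonneg_right h3 (show (0 : ℝ) ≤ (Vz z)⁻¹ * (Vz z)⁻¹ by positivity)
    refine le_trans (le_of_eq ?_) h6
    field_simp
  refine le_trans ?_ h5
  have h6 : (X : ℝ) / ((b * C : ℕ) : ℝ) ≤ 2000 * (A * N) := by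
    push_cast
    rw [div_le_iff₀ (by positivity)]
    linarith
  have h7 := mul_le_mul_of_nonneg_left h6 (show (0 : ℝ) ≤ 3 / 32000 * (1 / 2) ^ A.primeFactors.card by positivity)
  refine h7.trans (le_of_eq ?_)
  ring

end Pool.Agent.L0h52.RZ
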