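import Mathlib
import Pool.Agent.L0h52.RZ.Anb1

/-! Part (18) of project RZ: the sieve count over `p`. -/

set_option autoImplicit false

namespace Pool.Agent.L0h52.RZ
open Finset Pool.Agent.L0h94.RZ
open Pool.Agent.H373R2.T7 (pz Vz mem_pz nuB PerB Vz_pos Vz_ge Vz_le_one nuB_le)

/-- the number of excluded classes -/
def nu2 (D p : ℕ) : ℕ := if p ∣ 6 * D then 0 else 1

lemma prod2 (D z : ℕ) (hD : D ≠ 0) : Vz z / Pz D z ≤ ∏ p ∈ pz z, (1 - (nu2 D p : ℝ) / p) := by
  rw [div_le_iff₀ (Pz_pos D z), Pz_eq D z hD, ← prod_mul_distrib]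
  unfold Pool.Agent.H373R2.T7.Vz
  apply prod_le_prod
  · intro p hp
    exact (one_sub_pos (mem_pz.1 hp).2).le
  · intro p hp
    have hpp := (mem_pz.1 hp).2
    have h0 := one_sub_pos hpp
    have h1 := one_sub_le p
    unfold nu2
    by_cases h6 : p ∣ 6 * D
    · rw [if_pos h6]
      by_cases hpD : p ∣ D
      · rw [if_pos hpD]; simp
      · rw [if_neg hpD]; simpa using h1
    · rw [if_neg h6]
      have hpD : ¬ p ∣ D := fun h => h6 (Dvd.dvd.mul_left h 6)
      rw [if_neg hpD]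
      simp

open Classical in
/-- the number of the excluded classes for one affine form -/
lemma one_form (z D : ℕ) (a1 b1 : ℕ) (hb1 : b1 = 48 * D) (Q : ℕ → ℕ → Prop)
    (hQ : ∀ l t, Q l t ↔ l ∈ pz z ∧ ¬ l ∣ 6 * D ∧ l ∣ a1 + b1 * t) :
    PerB Q 1 ∧ ∀ l : ℕ, l.Prime → nuB Q l ≤ nu2 D l := by
  have key : ∀ l : ℕ, l.Prime → nuB Q l ≤ nu2 D l := by
    intro l hl
    unfold Pool.Agent.H373R2.T7.nuB
    by_cases h0 : l ∈ pz z ∧ ¬ l ∣ 6 * D
    · obtain ⟨hz, h6D⟩ := h0
      have hlD : ¬ l ∣ D := fun h => h6D (Dvd.dvd.mul_left h 6)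
      have hl6 : ¬ l ∣ 6 := fun h => h6D (Dvd.dvd.mul_right h D)
      have hl2 : l ≠ 2 := by rintro rfl; exact hl6 (by norm_num)
      have hl3 : l ≠ 3 := by rintro rfl; exact hl6 (by norm_num)
      have hl48 : ¬ l ∣ 48 := by
        intro h
        have : l ∣ 2 ^ 4 * 3 := by norm_num; exact h
        rcases (Nat.Prime.dvd_mul hl).1 this with h | h
        · exact hl2 ((Nat.prime_dvd_prime_iff_eq hl Nat.prime_two).1 (hl.dvd_of_dvd_pow h))
        · exact hl3 ((Nat.prime_dvd_prime_iff_eq hl Nat.prime_three).1 h)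
      unfold nu2
      rw [if_neg h6D]
      refine (card_le_card ?_).trans (one_class l hl a1 b1 ?_)
      · intro t ht
        rw [mem_filter, hQ] at ht
        rw [mem_filter]
        exact ⟨ht.1, ht.2.2.2⟩
      · rw [hb1]
        intro h
        rcases (Nat.Prime.dvd_mul hl).1 h with h | h
        · exact hl48 h
        · exact hlD h
    · have : ((range l).filter (fun r => Q l r)).card = 0 := by
        rw [card_eq_zero, filter_eq_empty_iff]
        intro t _ ht
        rw [hQ] at ht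
        exact h0 ⟨ht.1, ht.2.1⟩
      rw [this]
      exact Nat.zero_le _
  refine ⟨⟨?_, fun l hl => (key l hl).trans (by unfold nu2; split_ifs <;> omega)⟩, key⟩
  intro l t
  rw [hQ, hQ, per_dvd l a1 b1 t]

open Classical in
theorem anb2 : S_ANB2 := by
  intro B hB
  refine ⟨1 / 8000, by norm_num, ?_⟩
  obtain ⟨X1, h1⟩ := cnt_lower 1 B (by norm_num)
  obtain ⟨X2, h2⟩ := card_large 20
  refine ⟨max (max X1 X2) (10 ^ 9), ?_⟩
  intro X hX s P Q R z E hSt hD hSz hom hz1 hz2
  have hXX1 : X1 ≤ X := le_trans (le_trans (le_max_left _ _) (le_max_left _ _)) hX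
  have hXX2 : X2 ≤ X := le_trans (le_trans (le_max_right _ _) (le_max_left _ _)) hX
  have hX9 : 10 ^ 9 ≤ X := le_trans (le_max_right _ _) hX
  obtain ⟨hsq, hc6⟩ := hSt
  rw [Fin.prod_univ_three] at hsq hc6 hD hom
  have hp3' := hSz.p3
  unfold W1
  clear hSz
  generalize s 0 = A at *
  generalize s 1 = b at *
  generalize s 2 = C at *
  set D0 := A * b * C with hD0
  have hD0pos : 0 < D0 := Nat.pos_of_ne_zero hsq.ne_zero
  have hApos : 0 < A := Nat.pos_of_ne_zero (by intro h; rw [hD0, h] at hD0pos; simp at hD0pos)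
  have hbpos : 0 < b := Nat.pos_of_ne_zero (by intro h; rw [hD0, h] at hD0pos; simp at hD0pos)
  have hCpos : 0 < C := Nat.pos_of_ne_zero (by intro h; rw [hD0, h] at hD0pos; simp at hD0pos)
  have hDA : D0 = A * (b * C) := by rw [hD0]; ring
  have hsqD : Squarefree (b * C) := hsq.squarefree_of_dvd ⟨A, by rw [hD0]; ring⟩
  have hcopA : Nat.Coprime A (b * C) := Nat.coprime_of_squarefree_mul (by rw [hDA] at hsq; exact hsq)
  have hA6 : A.Coprime 6 := Nat.Coprime.coprime_dvd_left ⟨b * C, by rw [hD0]; ring⟩ hc6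
  have hD6 : (b * C).Coprime 6 := Nat.Coprime.coprime_dvd_left ⟨A, by rw [hD0]; ring⟩ hc6
  have hpr6 : ∀ k : ℕ, k.Coprime 6 → k.Coprime 48 := by
    intro k hk
    exact Nat.Coprime.coprime_dvd_right (by norm_num) (Nat.Coprime.pow_right 4 hk)
  have hpF : ∀ l, l ∈ (b * C).primeFactors ↔ l ∈ b.primeFactors ∨ l ∈ C.primeFactors := by
    intro l
    rw [Nat.primeFactors_mul hbpos.ne' hCpos.ne', mem_union]
  obtain ⟨hN1, hN2, hN3, hN4⟩ := Nfacts X D0 hX9 hD hD0pos
  set N := X / (1000 * D0) with hN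
  set D := b * C with hDdef
  have hDpos : 0 < D := Nat.mul_pos hbpos hCpos
  obtain ⟨c48, _, _, hc48⟩ := exists_res 41 48 A (by norm_num) (hpr6 A hA6)
  -- the classes
  set Pl : ℕ → ℕ → Prop := fun l a => ¬ (l : ℤ) ∣ (-(A : ℤ)) * (a : ℤ) + 0 ∧
    nr l ((-(A : ℤ)) * (a : ℤ) + 0) = ind E l with hPl
  set T1 := (range (48 * ∏ l ∈ D.primeFactors, l)).filter
    (fun n => n ≡ c48 [MOD 48] ∧ ∀ l ∈ D.primeFactors, Pl l (n % l)) with hT1
  have hprodD : ∏ l ∈ D.primeFactors, l = D := Nat.prod_primeFactors_of_squarefree hsqD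
  have hT1c : T1.card = ∏ l ∈ D.primeFactors, ((range l).filter (fun a => Pl l a)).card := by
    rw [hT1]
    apply crt_exact Pl D.primeFactors (fun l hl => Nat.prime_of_mem_primeFactors hl) 48 (by norm_num)
    intro l hl h12
    have hlp := Nat.prime_of_mem_primeFactors hl
    have h3 := Nat.Coprime.coprime_dvd_left (Nat.dvd_of_mem_primeFactors hl) (hpr6 D hD6)
    exact hlp.one_lt.ne' (Nat.Coprime.eq_one_of_dvd h3 h12)
  have hz1' : 1 ≤ Real.log X := by
    rw [Real.le_log_iff_exp_le (by positivity)]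
    have h3 : (10 : ℝ) ≤ X := by
      have : 10 ≤ X := by omega
      exact_mod_cast this
    have := Real.exp_one_lt_d9
    linarith
  have hzX : Real.log X ≤ z := by
    refine le_trans ?_ hz1
    calc Real.log X = Real.log X ^ 1 := (pow_one _).symm
      _ ≤ _ := pow_le_pow_right₀ hz1' (by omega)
  have hz1'' : 1 ≤ z := by
    have : (1 : ℝ) ≤ z := hz1'.trans hzX
    exact_mod_cast this
  have hcardD := h2 X hXX2 _ hom
  have hAD : D.primeFactors.card ≤ D0.primeFactors.card :=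
    card_le_card (Nat.primeFactors_mono ⟨A, by rw [hDA]; ring⟩ hD0pos.ne')
  have hcardA : 2 * (D.primeFactors.card : ℝ) ≤ z := by
    have : (D.primeFactors.card : ℝ) ≤ D0.primeFactors.card := by exact_mod_cast hAD
    linarith
  have hclass := classes_ge D z T1.card hsqD hz1'' hcardA (fun l => ((range l).filter (fun a => Pl l a)).card)
    (fun l hl => by
      have hlp := Nat.prime_of_mem_primeFactors hl
      have hlA := Nat.dvd_of_mem_primeFactors hl
      have hl6 : l.Coprime 6 := Nat.Coprime.coprime_dvd_left hlA hD6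
      have hl2 : l ≠ 2 := by rintro rfl; norm_num at hl6
      refine half_cnt l hlp hl2 (-(A : ℤ)) 0 ?_ (ind E l)
      intro h
      rw [dvd_neg] at h
      have h' : l ∣ A := by exact_mod_cast h
      exact hlp.one_lt.ne' (Nat.Coprime.eq_one_of_dvd (Nat.Coprime.coprime_dvd_left hlA hcopA.symm) h')) hT1c
  -- the good t
  set TT := (Icc 1 (P / 4)).filter (fun t => ((∀ l ∈ b.primeFactors, ¬ l ∣ t ∧
      nr l (-((A * t : ℕ) : ℤ)) = ind E l) ∧ (∀ l ∈ C.primeFactors, ¬ l ∣ t ∧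
      nr l (-((A * t : ℕ) : ℤ)) = ind E l) ∧ (A * t) % 48 = 7) ∧ (∀ l ∈ pz z, ¬ l ∣ t)) with hTT
  set Qt : ℕ → ℕ → ℕ → Prop := fun t1 l t => l ∈ pz z ∧ ¬ l ∣ 6 * D ∧ l ∣ t1 + (48 * D) * t with hQt
  have hQt2 : ∀ t1, PerB (Qt t1) 1 ∧ ∀ l : ℕ, l.Prime → nuB (Qt t1) l ≤ nu2 D l := by
    intro t1
    apply one_form z D t1 (48 * D) rfl
    intro l t
    exact Iff.rfl
  set G : ℕ → Finset ℕ := fun t1 => (Icc 1 N).filter (fun t => ∀ l ∈ pz z, ¬ Qt t1 l t) with hG
  set Pi : ℝ := Vz z / Pz D z with hPi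
  have hPipos : 0 < Pi := by
    rw [hPi]
    have := Vz_pos z
    have := Pz_pos D z
    positivity
  have hz1r : (1 : ℝ) ≤ z := by exact_mod_cast hz1''
  have hPi1 : (1 / 2) / (z : ℝ) ^ 2 ≤ Pi := by
    rw [hPi, le_div_iff₀ (Pz_pos D z)]
    have h3 : (1 / 2) / (z : ℝ) ^ 2 * Pz D z ≤ (1 / 2) / (z : ℝ) ^ 2 * 1 :=
      mul_le_mul_of_nonneg_left (Pz_le_one D z) (by positivity)
    have h4 := Vz_ge z hz1''
    have h5 : (1 / 2) / (z : ℝ) ^ 2 ≤ 1 / z := by
      rw [div_le_div_iff₀ (by positivity) (by positivity)]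
      nlinarith
    linarith
  have hPi2 : ∀ t1, Pi ≤ ∏ p ∈ pz z, (1 - (nuB (Qt t1) p : ℝ) / p) := by
    intro t1
    refine (prod2 D z hDpos.ne').trans ?_
    apply prod_le_prod
    · intro p hp
      have hpp := (mem_pz.1 hp).2
      have h2 : (2 : ℝ) ≤ p := by exact_mod_cast hpp.two_le
      have h3 : (nu2 D p : ℝ) ≤ 1 := by
        have : nu2 D p ≤ 1 := by unfold nu2; split_ifs <;> omega
        exact_mod_cast this
      rw [sub_nonneg, div_le_one (by linarith)]
      linarith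
    · intro p hp
      have hpp := (mem_pz.1 hp).2
      have h3 : (nuB (Qt t1) p : ℝ) ≤ nu2 D p := by exact_mod_cast (hQt2 t1).2 p hpp
      have h4 : (nuB (Qt t1) p : ℝ) / p ≤ nu2 D p / p := div_le_div_of_nonneg_right h3 (Nat.cast_nonneg _)
      linarith
  have hGc : ∀ t1, (1 / 2) * N * Pi ≤ ((G t1).card : ℝ) := by
    intro t1
    apply h1 X hXX1 N z hN3 hz1'' hz2 (Qt t1) (hQt2 t1).1 Pi hPi1 (hPi2 t1)
    intro n hn hn2
    rw [hG, mem_filter]
    exact ⟨hn, hn2⟩
  have hlift : ∑ t ∈ T1, (G t).card ≤ TT.card := by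
    apply lift (48 * D) (by positivity) T1 TT
    · intro t ht
      rw [hT1, mem_filter, mem_range, hprodD] at ht
      exact ht.1
    · intro t1 ht1 t ht
      rw [hT1, mem_filter, mem_range, hprodD] at ht1
      obtain ⟨ht1a, ht1b, ht1c⟩ := ht1
      rw [hG, mem_filter, mem_Icc] at ht
      obtain ⟨⟨hta, htb⟩, htc⟩ := ht
      have hW2a : ∀ l ∈ D.primeFactors, ¬ l ∣ t1 + 48 * D * t ∧
          nr l (-((A * (t1 + 48 * D * t) : ℕ) : ℤ)) = ind E l := by
        intro l hl
        have hlA := Nat.dvd_of_mem_primeFactors hl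
        have h3 : t1 + 48 * D * t ≡ t1 [MOD l] := by
          have h4 : 48 * D * t ≡ 0 [MOD l] := (Nat.modEq_zero_iff_dvd).2 (Dvd.dvd.mul_right (Dvd.dvd.mul_left hlA 48) t)
          simpa using Nat.ModEq.add_left t1 h4
        have h4 := trans_cond l (-(A : ℤ)) 0 (t1 + 48 * D * t) t1 h3 (ind E l) (ht1c l hl)
        have h5 : (-(A : ℤ)) * ((t1 + 48 * D * t : ℕ) : ℤ) + 0 = (-((A * (t1 + 48 * D * t) : ℕ) : ℤ)) := by
          push_cast
          ring
        rw [h5] at h4
        refine ⟨fun h => h4.1 ?_, h4.2⟩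
        rw [dvd_neg]
        exact_mod_cast Dvd.dvd.mul_left h A
      have hW2c : (A * (t1 + 48 * D * t)) % 48 = 7 := by
        have h3 : t1 + 48 * D * t ≡ c48 [MOD 48] := by
          have h4 : 48 * D * t ≡ 0 [MOD 48] := (Nat.modEq_zero_iff_dvd).2 ⟨D * t, by ring⟩
          have h5 := Nat.ModEq.add ht1b h4
          simpa using h5
        have h4 : 41 + A * (t1 + 48 * D * t) ≡ 41 + A * c48 [MOD 48] :=
          Nat.ModEq.add_left _ (Nat.ModEq.mul_left _ h3)
        have h5 : 41 + A * (t1 + 48 * D * t) ≡ 0 [MOD 48] := h4.trans ((Nat.modEq_zero_iff_dvd).2 hc48)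
        unfold Nat.ModEq at h5
        generalize A * (t1 + 48 * D * t) = W at h5 ⊢
        omega
      have hunit : ∀ l ∈ pz z, ¬ l ∣ t1 + 48 * D * t := by
        intro l hl
        have hlp := (mem_pz.1 hl).2
        by_cases h6A : l ∣ 6 * D
        · rcases (Nat.Prime.dvd_mul hlp).1 h6A with h6 | hlA
          · have hle : l ≤ 6 := Nat.le_of_dvd (by norm_num) h6
            have hl23 : l = 2 ∨ l = 3 := by
              have := hlp.two_le
              interval_cases l
              · left; rfl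
              · right; rfl
              · exact absurd hlp (by norm_num)
              · norm_num at h6
              · exact absurd hlp (by norm_num)
            intro h
            have h3 : l ∣ A * (t1 + 48 * D * t) := Dvd.dvd.mul_left h A
            generalize A * (t1 + 48 * D * t) = W at h3 hW2c
            rcases hl23 with rfl | rfl <;> omega
          · have hlm : l ∈ D.primeFactors := Nat.mem_primeFactors.2 ⟨hlp, hlA, hDpos.ne'⟩
            exact (hW2a l hlm).1
        · have h3 := htc l hl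
          intro h
          exact h3 ⟨hl, h6A, h⟩
      rw [hTT, mem_filter, mem_Icc]
      refine ⟨⟨?_, ?_⟩, ⟨fun l hl => hW2a l ((hpF l).2 (Or.inl hl)), fun l hl => hW2a l ((hpF l).2 (Or.inr hl)), hW2c⟩, hunit⟩
      · have : 0 < 48 * D * t := by positivity
        omega
      · rw [Nat.le_div_iff_mul_le (by norm_num)]
        have h3 : 48 * D * t ≤ 48 * D * N := Nat.mul_le_mul_left _ htb
        have h4 : t1 + 48 * D * t ≤ 48 * D * (N + 1) := by
          have e : 48 * D * (N + 1) = 48 * D * N + 48 * D := by ring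
          omega
        have h5 : A * ((t1 + 48 * D * t) * 4) ≤ A * (48 * D * (N + 1) * 4) :=
          Nat.mul_le_mul_left _ (Nat.mul_le_mul_right _ h4)
        have h6 : A * (48 * D * (N + 1) * 4) = 192 * (D0 * N) + 192 * D0 := by rw [hDA]; ring
        have h9 : D0 ≤ D0 * N := Nat.le_mul_of_pos_right _ hN4
        have h10 : 1000 * (D0 * N) ≤ X := by
          have : 1000 * D0 * N = 1000 * (D0 * N) := by ring
          omega
        have h12 : A * ((t1 + 48 * D * t) * 4) < A * P := by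
          have e : 2 * (A * P) > X := hp3'
          omega
        exact (Nat.lt_of_mul_lt_mul_left h12).le
  -- the sum
  have hVinv : 0 ≤ (Vz z)⁻¹ := (inv_pos.2 (Vz_pos z)).le
  have hsum : (TT.card : ℝ) * (Vz z)⁻¹ ≤ ∑ p ∈ (Icc 1 (P / 4)).filter (fun p => (∀ l ∈ b.primeFactors, ¬ l ∣ p ∧
      nr l (-((A * p : ℕ) : ℤ)) = ind E l) ∧ (∀ l ∈ C.primeFactors, ¬ l ∣ p ∧
      nr l (-((A * p : ℕ) : ℤ)) = ind E l) ∧ (A * p) % 48 = 7), lmz z p := by
    calc (TT.card : ℝ) * (Vz z)⁻¹ = ∑ t ∈ TT, (Vz z)⁻¹ := by rw [sum_const, nsmul_eq_mul]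
      _ = ∑ t ∈ TT, lmz z t := by
          apply sum_congr rfl
          intro t ht
          rw [hTT, mem_filter] at ht
          rw [lmz_eq, if_pos ht.2.2]
      _ ≤ _ := by
          apply sum_le_sum_of_subset_of_nonneg
          · intro t ht
            rw [hTT, mem_filter] at ht
            rw [mem_filter]
            exact ⟨ht.1, ht.2.1⟩
          · intro t _ _
            exact lmz_nonneg z t
  refine le_of_le_of_eq (le_trans ?_ hsum) ?_
  swap
  · congr
  have hV := Vz_pos z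
  have hP := Pz_pos D z
  have hNr : (X : ℝ) ≤ 2000 * ((A : ℝ) * D) * N := by
    have : (X : ℝ) ≤ ((2000 * D0 * N : ℕ) : ℝ) := by exact_mod_cast hN2
    rw [hDA] at this
    push_cast at this ⊢
    exact this
  have hTTc : (T1.card : ℝ) * ((1 / 2) * N * Pi) ≤ TT.card := by
    have h3 : ((∑ t ∈ T1, (G t).card : ℕ) : ℝ) ≤ TT.card := by exact_mod_cast hlift
    refine le_trans ?_ h3
    push_cast
    rw [← nsmul_eq_mul, ← sum_const]
    exact sum_le_sum (fun t _ => hGc t)
  have hA0 : (0 : ℝ) < A := by exact_mod_cast hApos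
  have hDr0 : (0 : ℝ) < D := by exact_mod_cast hDpos
  have hNpos : (0 : ℝ) < N := by exact_mod_cast hN4
  have h3 : (1 / 2 : ℝ) ^ D.primeFactors.card * ((D : ℝ) * ((1 / 2) * Pz D z)) * ((1 / 2) * N * Pi) ≤ TT.card :=
    (mul_le_mul_of_nonneg_right hclass (by positivity)).trans hTTc
  have h4 : (1 / 2 : ℝ) ^ D.primeFactors.card * ((D : ℝ) * ((1 / 2) * Pz D z)) * ((1 / 2) * N * Pi) =
      (1 / 4) * (1 / 2 : ℝ) ^ D.primeFactors.card * (D * N) * (Vz z) := by
    rw [hPi]
    field_simp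
    ring
  rw [h4] at h3
  have h5 : (1 / 4) * (1 / 2 : ℝ) ^ D.primeFactors.card * (D * N) ≤ (TT.card : ℝ) * (Vz z)⁻¹ := by
    have h6 := mul_le_mul_of_nonneg_right h3 (show (0 : ℝ) ≤ (Vz z)⁻¹ by positivity)
    refine le_trans (le_of_eq ?_) h6
    field_simp
  refine le_trans ?_ h5
  have h6 : (X : ℝ) / ((A : ℕ) : ℝ) ≤ 2000 * (D * N) := by
    rw [div_le_iff₀ (by positivity)]
    linarith
  have h7 := mul_le_mul_of_nonneg_left h6 (show (0 : ℝ) ≤ 1 / 8000 * (1 / 2) ^ D.primeFactors.card by positivity)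
  refine h7.trans (le_of_eq ?_)
  ring

end Pool.Agent.L0h52.RZ
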